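import Pool.Agent.R769.MN.PetG
import Pool.Agent.R129.Sh.Short

set_option autoImplicit false

/-!
# Y_2-flows: graphs with matching number at most eight (MP_65a8f1_co)

Let `G` be a finite graph without cut-edge in which every matching has at most eight edges.
Then `G` has a `Y_2`-flow: six even subgraphs such that each edge is in exactly four of them.

Proof.  By the theorem of helper769 (`R769/MN`) there is a map of the edges of `G` to the edges of the Petersen graph
such that the preimages of cycles are cycles.  The preimages of the complements of the six perfect
matchings of the Petersen graph are six cycles of `G`, and each edge is in exactly four of them.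
-/

open Finset

namespace Pool.Agent.Results.MP_65a8f1_co.MatchingNumberEight

open Pool.Agent.H160R2.CC Pool.Agent.H160R2.CC.MGraph

/-- `M` is a matching: its edges are not loops and no two of them have a common end. -/
def IsMatching (G : MGraph) (M : Finset G.E) : Prop :=
  (∀ e ∈ M, G.src e ≠ G.tgt e) ∧ ∀ e ∈ M, ∀ e' ∈ M, e ≠ e' →
    G.src e ≠ G.src e' ∧ G.src e ≠ G.tgt e' ∧ G.tgt e ≠ G.src e' ∧ G.tgt e ≠ G.tgt e'

/-- Let `G` be a finite graph without cut-edge in which every matching has at most eight edges.
Then `G` has a `Y_2`-flow: six even subgraphs such that each edge is in exactly four of them. -/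
theorem result (G : MGraph) (hB : ¬ G.HasCutEdge)
    (hM : ∀ M : Finset G.E, IsMatching G M → M.card ≤ 8) :
    ∃ D : Fin 6 → Finset G.E, (∀ k, G.IsCycle (D k)) ∧
      ∀ e, (Finset.univ.filter (fun k => e ∈ D k)).card = 4 :=
  Pool.Agent.R129.Sh.cover6 G (Pool.Agent.R769.MN.succ_match G hB hM)

end Pool.Agent.Results.MP_65a8f1_co.MatchingNumberEight
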